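import Pool.Agent.Y507.Coi.Stm

/-! # CO-VPI: the product of a polytope and an interval (helper217 for helper507) -/

set_option autoImplicit false

open MeasureTheory Set
open scoped Matrix ENNReal

namespace Pool.Agent.Y217.Coi

open Pool.Agent.W560.Coiso Pool.Agent.Y507.Coi

theorem dot_one {k : ℕ} (u : ℝ) (w : Fin (k + 1) → ℝ) (z : Fin (k + 2) → ℝ) :
    one u w ⬝ᵥ z = u * z 0 + w ⬝ᵥ (fun i => z i.succ) := by
  unfold one dotProduct
  rw [Fin.sum_univ_succ]
  simp only [Fin.cons_zero, Fin.cons_succ]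

theorem mem_iff {k : ℕ} {J : Type} (τ : J → Fin (k + 1) → ℝ) (hc : 0 < 1 + 2 * psi)
    (z : Fin (k + 2) → ℝ) : (∀ i, ti τ i ⬝ᵥ z ≤ 1) ↔
      (-((1 + 2 * psi) / 4) ≤ z 0 ∧ z 0 ≤ (1 + 2 * psi) / 4) ∧
        ∀ j, τ j ⬝ᵥ (fun i => z i.succ) ≤ 1 := by
  have hz : ∀ u : ℝ, one u (0 : Fin (k + 1) → ℝ) ⬝ᵥ z = u * z 0 := by
    intro u
    rw [dot_one, zero_dotProduct, add_zero]
  have h0 : ∀ w : Fin (k + 1) → ℝ, one 0 w ⬝ᵥ z = w ⬝ᵥ (fun i => z i.succ) := by
    intro w
    rw [dot_one, zero_mul, zero_add]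
  have e1 : ∀ x : ℝ, 4 / (1 + 2 * psi) * x ≤ 1 ↔ x ≤ (1 + 2 * psi) / 4 := by
    intro x
    rw [div_mul_eq_mul_div, div_le_one hc, le_div_iff₀ (by norm_num : (0 : ℝ) < 4), mul_comm]
  constructor
  · intro h
    have ht := h (Sum.inl true)
    have hf := h (Sum.inl false)
    simp only [ti, Sum.elim_inl, if_true, hz, one_mul] at ht
    simp only [ti, Sum.elim_inl, hz] at hf
    refine ⟨⟨?_, (e1 _).1 ht⟩, fun j => ?_⟩
    · have h2 : 4 / (1 + 2 * psi) * (-z 0) ≤ 1 := by
        simp only [Bool.false_eq_true, if_false] at hf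
        linarith
      have := (e1 _).1 h2
      linarith
    · have := h (Sum.inr j)
      simp only [ti, Sum.elim_inr, h0] at this
      exact this
  · rintro ⟨⟨h1, h2⟩, h3⟩ (a | j)
    · simp only [ti, Sum.elim_inl, hz]
      cases a with
      | true =>
        simp only [if_true, one_mul]
        exact (e1 _).2 h2
      | false =>
        simp only [Bool.false_eq_true, if_false]
        have := (e1 (-z 0)).2 (by linarith)
        linarith
    · simp only [ti, Sum.elim_inr, h0]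
      exact h3 j

theorem thm : S_VPI := by
  intro k J _ τ hb
  have hc : 0 < 1 + 2 * psi := by
    have := psi_gt
    linarith
  constructor
  · obtain ⟨R, hR⟩ := isBounded_iff_forall_norm_le.1 hb
    refine isBounded_iff_forall_norm_le.2 ⟨max ((1 + 2 * psi) / 4) R, fun z hz => ?_⟩
    obtain ⟨⟨h1, h2⟩, h3⟩ := (mem_iff τ hc z).1 hz
    have h4 := hR (fun i => z i.succ) h3
    have h5 : 0 ≤ (1 + 2 * psi) / 4 := by positivity
    rw [pi_norm_le_iff_of_nonneg (le_trans h5 (le_max_left _ _))]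
    intro i
    refine Fin.cases ?_ (fun j => ?_) i
    · rw [Real.norm_eq_abs]
      exact le_trans (abs_le.2 ⟨h1, h2⟩) (le_max_left _ _)
    · exact le_trans (norm_le_pi_norm (fun i => z i.succ) j) (le_trans h4 (le_max_right _ _))
  · have e : PS (k := k + 1) (ti τ) =
        (MeasurableEquiv.piFinSuccAbove (fun _ : Fin (k + 2) => ℝ) 0) ⁻¹'
          (Icc (-((1 + 2 * psi) / 4)) ((1 + 2 * psi) / 4) ×ˢ PS τ) := by
      ext z
      have hlast : z (Fin.last (k + 1)) = z (Fin.succ (Fin.last k)) := rfl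
      constructor
      · rintro ⟨h1, h2⟩
        obtain ⟨h3, h4⟩ := (mem_iff τ hc z).1 h1
        exact ⟨h3, h4, h2⟩
      · rintro ⟨h3, h4, h2⟩
        exact ⟨(mem_iff τ hc z).2 ⟨h3, h4⟩, h2⟩
    rw [e, (volume_preserving_piFinSuccAbove (fun _ : Fin (k + 2) => ℝ) 0).measure_preimage_equiv,
      Measure.volume_eq_prod, Measure.prod_prod, Real.volume_Icc]
    apply le_of_eq
    congr 2
    ring

end Pool.Agent.Y217.Coi
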